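import Pool.Agent.N103.OC.Final

/-!
# One Künneth component of a power, and the middle component

Let `W` be a Weil cohomology theory. We consider smooth proper varieties `X` which have, for all
`s ≤ dim X`, cycles of codimension `s` and `dim X - s` with a nonzero intersection number
(`DualCycles`; for a projective variety the powers of an ample divisor).

(1) For `n ≥ 4` and `3 dim X ≤ m ≤ 2 (n - 2) dim X + 1` (and `X` with odd cohomology if `m` is odd) ALL
the Künneth components of the diagonal of `X` are algebraic if and only if the ONE component `π_m` of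
the diagonal of `X^n` is algebraic. In particular the middle component `π_(n dim X)` of `X^n` is
enough, if `n dim X` is even or `X` has odd cohomology.

(2) The conjecture C for all varieties is equivalent to the algebraicity of the middle component
`π_(dim V)` for all the varieties `V` of dimension `n`, for arbitrarily large `n` (some sequence of
dimensions is enough).

Both are proved for cycles with rational coefficients and for linear combinations of algebraic
classes with coefficients in the coefficient field of `W`.
-/

set_option autoImplicit false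

universe u v

namespace Pool.Agent.Results.MP_4ca46c_ag.OneComponent

open Pool.Agent.H914 Pool.Agent.H914.VarClass Pool.Agent.H914.VarClass.Obj
  Pool.Agent.H914.WeilCohomology Pool.Agent.N103.OC

/-- **One Künneth component of a power, and the middle component.** -/
theorem result {k : Type u} [Field k] {𝒱 : VarClass k} {ops : CycleOps 𝒱}
    (W : WeilCohomology.{u, v} ops) :
    (∀ X : 𝒱.Obj, DualCycles ops X → ∀ n m : ℕ, 4 ≤ n → 3 * X.dim ≤ m →
      m ≤ 2 * (n - 2) * X.dim + 1 → (Even m ∨ HasOdd W X) →
      (AllRational W X ↔ RationalComponent W (pw X n) m) ∧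
      (AllSpan W X ↔ SpanComponent W (pw X n) m)) ∧
    ((∀ X : 𝒱.Obj, DualCycles ops X) → (∃ E : 𝒱.Obj, E.dim = 1 ∧ W.gr E 1 ≠ ⊥) →
      ((∀ X, AllRational W X) ↔ MiddleRational W) ∧
      ((∀ X, AllSpan W X) ↔ MiddleSpan W)) := by
  refine ⟨?_, ?_⟩
  · intro X hX n m hn hlow hup hodd
    refine ⟨?_, ?_⟩
    · have h := (rat_class W).one_component (pairs_of_dual hX) hn hlow hup hodd
      rw [← rationalComponent_iff] at h
      rw [← h]
      exact forall_congr' fun i => rationalComponent_iff i
    · have h := (kop_class W).one_component (pairs_of_dual hX) hn hlow hup hodd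
      rw [← spanComponent_iff] at h
      rw [← h]
      exact forall_congr' fun i => spanComponent_iff i
  · rintro hX ⟨E, hE, hE1⟩
    refine ⟨⟨?_, ?_⟩, ⟨?_, ?_⟩⟩
    · intro h n₀
      exact ⟨n₀, le_rfl, fun V _ => h V n₀⟩
    · intro h X i
      refine (rationalComponent_iff i).2 ((rat_class W).middle
        (fun Y => pairs_of_dual (hX Y)) hE hE1 ?_ X i)
      intro n₀
      obtain ⟨n, hn, h1⟩ := h n₀
      exact ⟨n, hn, fun V hV => (rationalComponent_iff n).1 (h1 V hV)⟩
    · intro h n₀
      exact ⟨n₀, le_rfl, fun V _ => h V n₀⟩
    · intro h X i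
      refine (spanComponent_iff i).2 ((kop_class W).middle
        (fun Y => pairs_of_dual (hX Y)) hE hE1 ?_ X i)
      intro n₀
      obtain ⟨n, hn, h1⟩ := h n₀
      exact ⟨n, hn, fun V hV => (spanComponent_iff n).1 (h1 V hV)⟩

end Pool.Agent.Results.MP_4ca46c_ag.OneComponent
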