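import Pool.Agent.Run7.h98.CR.Laws

/-!
# Conjecture C from a piece of one degree of the powers, rational cycles

Let `H` be a Weil cohomology (any base field), `b(Y)` the sum of the Betti numbers of `Y` and `β(Y)`
the largest Betti number. The cycles have rational coefficients; `C(X)` is the statement that all
Kunneth components of the diagonal of `X` are classes of rational cycles.

*One degree.* Let `d(Y)` be the largest rank of a direct summand `(Y, e)` of the motive of `Y` modulo
homological equivalence (`e` an idempotent rational cycle) whose cohomology is in one degree only.
Let `X` have a zero-cycle of degree different from zero.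
* If `C(X)` is false, then `d(X^n) ≤ b(X)^(n + 1) / (2 (n + 1))` for all `n ≥ 1`. Note that `β(X^n)`
  is at least `9 b(X)^n / (16 (4 √n dim X + 1))`.
* So `C(X)` is true if and only if `d(X^n) ≥ ε β(X^n)` for infinitely many `n`, for some `ε > 0`.
* `C(X)` is true for all `X` if and only if there is a function `f > 0` with `f(y) √(log y) → ∞` such
  that `d(Y) ≥ f(b(Y)) β(Y)` for all `Y` (if all varieties have such a zero-cycle).

*All degrees.* Let `c(Y)` be the largest rank of a direct summand `(Y, e)` such that all Kunneth
components of `e` are classes of rational cycles, `X` arbitrary.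
* If `C(X)` is false, then `c(X^n) ≤ b(X)^n √(b(X) / (2 (n + 1)))` for all `n ≥ 1`.
* `C(X)` is true if and only if `c(X^n) ≥ ε b(X^n)` for infinitely many `n`, for some `ε > 0`.
* `C(X)` is true for all `X` if and only if `c(Y) ≥ f(b(Y)) b(Y)` for all `Y`, for some `f` as above.

Proof. Let `A_n` be the algebra of the rational correspondences on `X^n` and `deg` the degree
operator. If no idempotent `z ≠ 0` of the `K`-span of `A_1` is orthogonal to `A_1` for the supertrace
form, there is `C` in `A_1` such that `λ(str(x deg)) = str(x C)` for all `x` in `A_1`, where `λ` is a
`ℚ`-linear projection of `K` onto `ℚ`. Put `δ = deg - C`, `δ_n = Σ δ_(i)` on `X^n`. For an idempotent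
`e` of `A_n` which acts in the degree `m` only, `str(δ_n e a) = 0` for all `a` in `A_n`, because
`str(deg e a) = m str(e a)` is rational and the contractions of algebraic correspondences are
algebraic. So the rank of `e` is at most the multiplicity of the eigenvalue `t m` of
`δ_n + t deg` for every `t` in `K`. If `δ` is nilpotent, the projectors to the `H^i(X)` are
polynomials in `C` with rational coefficients. Otherwise `δ` has an eigenvector in some `H^j(X)` with
an eigenvalue `l ≠ 0`, and it vanishes on `H^0(X)` and on the class of a point. For almost all `t` the
three eigenvalues `0`, `2 t dim X` and `l + t j` of `δ + t deg` are so independent that the number of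
words of length `n` with a given sum is at most `b(X)^(n + 1) / (2 (n + 1))`. If there is such an
idempotent `z`, the rank of `e` is at most `(b(X) - 2)^n`.
-/

open CategoryTheory AlgebraicGeometry

set_option autoImplicit false

universe u v

namespace Pool.Agent.Results.MP_4ca46c_ag.OneDegreeOfPowers

open Pool.Agent.H914 VarClass Obj WeilCohomology Pool.Agent.N103.OC Pool.Agent.Run7.H98.CR

/-- **Conjecture C from a piece of one degree of the powers.** -/
theorem result {k : Type u} [Field k] {𝒱 : VarClass k} {ops : CycleOps 𝒱}
    (W : WeilCohomology.{u, v} ops) :
    DegreeLaws W (oneDegreeDim W) (AllRational W) ∧ ShareLaws W (rationalDim W) (AllRational W) :=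
  ⟨rational_degree W, rational_share W⟩

end Pool.Agent.Results.MP_4ca46c_ag.OneDegreeOfPowers
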