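import Pool.Agent.Run7.h604.PL.Sign

/-!
# Conjecture C and the pairs of degrees which are separated by algebraic cycles

Let `W` be a Weil cohomology theory (`ℓ`-adic cohomology, say) on a class of smooth proper varieties
closed under products. Two degrees `i ≠ j` of a variety `Y` are *separated* if some cycle with rational
coefficients of codimension `dim Y` on `Y × Y` acts as the identity on `H^i(Y)` and as zero on
`H^j(Y)` (`SepQ`). Conjecture C for `Y` says that all pairs of degrees are separated. Let
`U(Y) = unsepQ W Y` be the sum of the `b_i(Y) b_j(Y)` over all pairs `i ≠ j` which are *not* separated,
so `U(Y) / b(Y)^2` is the probability that two random members of a homogeneous basis of `H(Y)` have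
different degrees which are not separated; `b(Y)` is the sum of the Betti numbers.

**Theorem.** (1) Let `X` have cycles of codimension `s` and `dim X - s` with a nonzero intersection
number for all `s ≤ dim X` (for projective `X` the powers of an ample divisor). If conjecture C is false
for `X` then for all `n ≥ 2`

  `U(X^n) / b(X^n)^2 ≥ 9 / (16 b(X)^4 (4 dim X √n + 1))`.

So conjecture C is true for `X` if `liminf √n U(X^n) / b(X^n)^2 = 0`.

(2) If all varieties of the class have such cycles then conjecture C for all varieties is equivalent to
`U(Y) ≤ f(b(Y)) b(Y)^2` for all `Y`, where `f` is any function with `f(y) √(log y) → 0`: it is enough to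
separate almost all pairs of degrees, up to a share of smaller order than `(log b(Y))^(-1/2)`.

(3) It is also equivalent to the separation of `r + 1` successive degrees of each `Y` of large
dimension, where `r = r(dim Y)` is any function which tends to infinity, if these degrees have
distance at least `r` from `0` and `2 dim Y`.

The same is true for the weaker form of conjecture C, and of the separation, with linear combinations
of cycles with coefficients in the coefficient field `K` of `W`; there the separation may even depend
on the classes (`SepK`).

Proof. If `i ≠ j` are not separated on `X` then `i + 2 s` and `j + 2 s` are not separated on `X^(n+1)`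
for `0 ≤ s ≤ n dim X`: contract with a pair of dual cycles on the other factors (`pw_pshift` of
`Pool/Agent/N536/SG`). The Betti numbers of `X^n` count the words of length `n` in a homogeneous basis
according to the degree, and two random words have the same degree with probability at least
`c n^(-1/2)` (Chebyshev and Cauchy-Schwarz, `Run7.h604.PL.equal_pairs`).
-/

set_option autoImplicit false

open CategoryTheory AlgebraicGeometry

universe u v

namespace Pool.Agent.Results.MP_4ca46c_ag.PairsOfDegrees

open Pool.Agent.H914 VarClass Obj WeilCohomology Pool.Agent.N103.OC Pool.Agent.N536.SG
  Run7.h604.PL

/-- **It is enough to separate almost all pairs of degrees.** -/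
theorem result {k : Type u} [Field k] {𝒱 : VarClass k} {ops : CycleOps 𝒱}
    (W : WeilCohomology.{u, v} ops) :
    LawFor W (unsepQ W) (AllRational W) ∧ LawFor W (unsepK W) (AllSpan W) ∧
    ((∀ X : 𝒱.Obj, DualCycles ops X) →
      FromWindows (SepQ W) (AllRational W) ∧ FromWindows (SepK W) (AllSpan W)) :=
  ⟨law_rational W, law_span W, fun hX => ⟨windows_rational W hX, windows_span W hX⟩⟩

end Pool.Agent.Results.MP_4ca46c_ag.PairsOfDegrees
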